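import Pool.Agent.Helper63.GB2.Defs
import Pool.Agent.Helper70.GB.Obs

/-!
# MP_02f2ca_gt, n = 2, module B12: decomposition of the planar bodies into levels
-/

open Set MeasureTheory Filter Topology

namespace GB

section
variable {a₁ a₂ : ℝ} {thr : ℕ → Set ℝ → ℕ} {thr2 : ℝ → ℕ} {κ : ℕ → ℕ → ℕ}
    {e : ℕ → ℝ} {μ₀ : ℝ} {X : ℕ → Lev} {ε : ℕ → ℝ} {θ : ℕ → ℕ}

open Classical in
lemma sign_diff (h : Levels a₁ a₂ thr thr2 κ e μ₀ X ε θ) (i : ℕ) (y : ℝ)
    (hy : ∀ j, i < j → cob a₁ (X j).G y = 0) :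
    ((if ∃ j, cob a₁ (X j).G y = 1 then 1 else 0) : ℝ) -
      (if ∃ j, cob a₁ (X j).G y = -1 then 1 else 0) =
      ∑ j ∈ Finset.range (i + 1), (cob a₁ (X j).G y : ℝ) := by
  by_cases hall : ∀ j, cob a₁ (X j).G y = 0
  · have h1 : ¬ ∃ j, cob a₁ (X j).G y = 1 := by
      rintro ⟨j, hj⟩; rw [hall j] at hj; norm_num at hj
    have h2 : ¬ ∃ j, cob a₁ (X j).G y = -1 := by
      rintro ⟨j, hj⟩; rw [hall j] at hj; norm_num at hj
    rw [if_neg h1, if_neg h2, Finset.sum_eq_zero (fun j _ => by rw [hall j]; norm_num)]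
    ring
  · push Not at hall
    obtain ⟨j₀, hj₀⟩ := hall
    have hj₀i : j₀ < i + 1 := by
      by_contra hcon
      exact hj₀ (hy j₀ (by omega))
    have hsum : ∑ j ∈ Finset.range (i + 1), (cob a₁ (X j).G y : ℝ) = cob a₁ (X j₀).G y := by
      rw [Finset.sum_eq_single_of_mem j₀ (Finset.mem_range.mpr hj₀i)]
      intro j _ hj
      by_contra hne
      apply hj
      exact h.unique y j j₀ (fun h0 => hne (by rw [h0]; norm_num)) hj₀
    rw [hsum]
    rcases cob_tri a₁ (X j₀).G y with h0 | h1 | h1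
    · exact absurd h0 hj₀
    · have h2 : ∃ j, cob a₁ (X j).G y = 1 := ⟨j₀, h1⟩
      have h3 : ¬ ∃ j, cob a₁ (X j).G y = -1 := by
        rintro ⟨j, hj⟩
        have := h.unique y j j₀ (by rw [hj]; norm_num) hj₀
        subst this
        rw [h1] at hj; norm_num at hj
      rw [if_pos h2, if_neg h3, h1]
      push_cast; ring
    · have h2 : ∃ j, cob a₁ (X j).G y = -1 := ⟨j₀, h1⟩
      have h3 : ¬ ∃ j, cob a₁ (X j).G y = 1 := by
        rintro ⟨j, hj⟩
        have := h.unique y j j₀ (by rw [hj]; norm_num) hj₀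
        subst this
        rw [h1] at hj; norm_num at hj
      rw [if_pos h2, if_neg h3, h1]
      push_cast; ring

end

theorem body_diff {a₁ a₂ : ℝ} {thr : ℕ → Set ℝ → ℕ} {thr2 : ℝ → ℕ} {κ : ℕ → ℕ → ℕ}
    {e : ℕ → ℝ} {μ₀ : ℝ} {X : ℕ → Lev} {ε : ℕ → ℝ} {θ : ℕ → ℕ}
    (h : Levels a₁ a₂ thr thr2 κ e μ₀ X ε θ) (i : ℕ) (z : ℂ)
    (hz : ∀ u : ℤ, z.re + u ∉ Ioo 0 (X i).ε') :
    (cyl (body a₁ X 1)).indicator (fun _ => (1 : ℝ)) z
      - (cyl (body a₁ X (-1))).indicator (fun _ => (1 : ℝ)) z =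
      ∑ j ∈ Finset.range (i + 1), Fl a₁ (X j).G z := by
  classical
  by_cases him : z.im ∈ Ioo (0 : ℝ) 1
  · have hcyl : ∀ σ : ℤ, (cyl (body a₁ X σ)).indicator (fun _ => (1 : ℝ)) z =
        if z.re ∈ body a₁ X σ then 1 else 0 := by
      intro σ
      rw [Set.indicator_apply]
      congr 1
      exact propext ⟨fun hh => hh.1, fun hh => ⟨hh, him⟩⟩
    rw [hcyl, hcyl]
    by_cases hre : z.re ∈ Ioo (2 : ℝ) 3
    · have hsq : z ∈ sq2 := ⟨hre, him⟩
      have hFl : ∀ j, Fl a₁ (X j).G z = (cob a₁ (X j).G z.re : ℝ) := by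
        intro j
        unfold Fl
        rw [Set.indicator_of_mem hsq]
      have hbody : ∀ σ : ℤ, z.re ∈ body a₁ X σ ↔ ∃ j, cob a₁ (X j).G z.re = σ := by
        intro σ
        have hper : ∀ j, cob a₁ (X j).G (z.re - 2) = cob a₁ (X j).G z.re := by
          intro j
          have := cob_int (a₁ := a₁) (h.good j).Gper z.re (-2)
          rw [← this]
          congr 1
          push_cast; ring
        constructor
        · rintro (h1 | ⟨y, ⟨hy1, j, hj⟩, hy2⟩)
          · exfalso; linarith [h1.2, hre.1]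
          · refine ⟨j, ?_⟩
            have : y = z.re - 2 := by
              have : y + 2 = z.re := hy2
              linarith
            rw [this, hper] at hj
            exact hj
        · rintro ⟨j, hj⟩
          right
          refine ⟨z.re - 2, ⟨⟨by linarith [hre.1], by linarith [hre.2]⟩, j, ?_⟩, ?_⟩
          · rw [hper]; exact hj
          · change z.re - 2 + 2 = z.re
            ring
      rw [Finset.sum_congr rfl (fun j _ => hFl j), ← sign_diff h i z.re
        (fun j hj => h.cob_eq_zero hj _ hz)]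
      simp only [hbody]
    · have hsq : z ∉ sq2 := fun hh => hre hh.1
      have hFl : ∀ j, Fl a₁ (X j).G z = 0 := by
        intro j
        unfold Fl
        rw [Set.indicator_of_notMem hsq]
      have hbody : ∀ σ : ℤ, z.re ∈ body a₁ X σ ↔ z.re ∈ Ioo (0 : ℝ) 1 := by
        intro σ
        constructor
        · rintro (h1 | ⟨y, ⟨hy1, j, hj⟩, hy2⟩)
          · exact h1
          · exfalso
            apply hre
            have : y + 2 = z.re := hy2
            exact ⟨by linarith [hy1.1], by linarith [hy1.2]⟩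
        · intro h1
          exact Or.inl h1
      simp only [hbody, hFl, Finset.sum_const_zero, sub_self]
  · have hsq : z ∉ sq2 := fun hh => him hh.2
    have hcyl : ∀ σ : ℤ, (cyl (body a₁ X σ)).indicator (fun _ => (1 : ℝ)) z = 0 := by
      intro σ
      apply Set.indicator_of_notMem
      exact fun hh => him hh.2
    have hFl : ∀ j, Fl a₁ (X j).G z = 0 := by
      intro j
      unfold Fl
      rw [Set.indicator_of_notMem hsq]
    rw [hcyl, hcyl, Finset.sum_eq_zero (fun j _ => hFl j), sub_self]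

end GB
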